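import Pool.Agent.D0H99.OD.Stm4

set_option autoImplicit false

/-! Module AVG of project OD (helper99): the mean value from the distribution function. -/

namespace Pool.Agent.D0H22.OD

open Finset Filter Pool.Agent.D0H99.OD

theorem ww_succ (n : ℕ) : ww (n + 1) = ww n * (2 / ((2 : ℝ) ^ (n + 1) - 1)) := by
  unfold ww
  rw [prod_range_succ]

theorem two_pow_ge (n : ℕ) : (2 : ℝ) ≤ 2 ^ (n + 1) := by
  rw [pow_succ]
  have : (1 : ℝ) ≤ 2 ^ n := one_le_pow₀ (by norm_num)
  linarith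

theorem fac_pos (n : ℕ) : 0 < 2 / ((2 : ℝ) ^ (n + 1) - 1) := by
  have := two_pow_ge n
  exact div_pos (by norm_num) (by linarith)

theorem ww_pos (n : ℕ) : 0 < ww n := by
  unfold ww
  exact prod_pos fun i _ => fac_pos i

theorem fac_le (n : ℕ) (hn : 2 ≤ n) : 2 / ((2 : ℝ) ^ (n + 1) - 1) ≤ 1 / 2 := by
  have h1 : (8 : ℝ) ≤ 2 ^ (n + 1) := by
    calc (8 : ℝ) = 2 ^ 3 := by norm_num
      _ ≤ 2 ^ (n + 1) := pow_le_pow_right₀ (by norm_num) (by omega)
  rw [div_le_div_iff₀ (by linarith) (by norm_num)]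
  linarith

theorem ww_half (n : ℕ) (hn : 2 ≤ n) (i : ℕ) : ww (i + n) ≤ ww n * (1 / 2) ^ i := by
  induction i with
  | zero => simp
  | succ i ih =>
    have e : i + 1 + n = (i + n) + 1 := by ring
    rw [e, ww_succ, pow_succ (1 / 2 : ℝ) i, ← mul_assoc]
    exact mul_le_mul ih (fac_le _ (by omega)) (fac_pos _).le (mul_nonneg (ww_pos n).le (by positivity))

theorem summ : Summable ww := by
  rw [← summable_nat_add_iff 2]
  exact Summable.of_nonneg_of_le (fun i => (ww_pos _).le) (fun i => ww_half 2 le_rfl i)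
    (summable_geometric_two.mul_left _)

theorem tsum_le : ∑' j, ww j ≤ 372558947 / 78129765 := by
  rw [← summ.sum_add_tsum_nat_add 7]
  have h1 : ∑' i, ww (i + 7) ≤ ww 7 * 2 := by
    have h2 : ∑' i, ww (i + 7) ≤ ∑' i : ℕ, ww 7 * (1 / 2) ^ i :=
      Summable.tsum_le_tsum (fun i => ww_half 7 (by norm_num) i) ((summable_nat_add_iff 7).2 summ)
        (summable_geometric_two.mul_left _)
    rwa [tsum_mul_left, tsum_geometric_two] at h2
  have h3 : ∑ i ∈ range 7, ww i + ww 7 * 2 = 372558947 / 78129765 := by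
    unfold ww
    norm_num [sum_range_succ, prod_range_succ]
  linarith

theorem tsum_pos' : 0 < ∑' j, ww j := summ.tsum_pos (fun i => (ww_pos i).le) 0 (ww_pos 0)

/-- the partial sums -/
theorem FF_ge (m : ℕ) : (∑ d ∈ range (m + 1), ww d) / (372558947 / 78129765) ≤ FF m := by
  unfold FF
  exact div_le_div_of_nonneg_left (sum_nonneg fun i _ => (ww_pos i).le) tsum_pos' tsum_le

theorem FF_sum : (14 : ℝ) - 12646 / 10000 ≤ ∑ m ∈ range 14, FF m := by
  have h1 : ∀ m, 6 ≤ m → (∑ d ∈ range 7, ww d) / (372558947 / 78129765) ≤ FF m := by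
    intro m hm
    refine le_trans ?_ (FF_ge m)
    refine div_le_div_of_nonneg_right ?_ (by norm_num)
    exact sum_le_sum_of_subset_of_nonneg (range_subset_range.2 (by omega)) fun i _ _ => (ww_pos i).le
  have f0 := FF_ge 0
  have f1 := FF_ge 1
  have f2 := FF_ge 2
  have f3 := FF_ge 3
  have f4 := FF_ge 4
  have f5 := FF_ge 5
  have f6 := h1 6 (by norm_num)
  have f7 := h1 7 (by norm_num)
  have f8 := h1 8 (by norm_num)
  have f9 := h1 9 (by norm_num)
  have f10 := h1 10 (by norm_num)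
  have f11 := h1 11 (by norm_num)
  have f12 := h1 12 (by norm_num)
  have f13 := h1 13 (by norm_num)
  have hw : ww 0 = 1 ∧ ww 1 = 2 ∧ ww 2 = 4 / 3 ∧ ww 3 = 8 / 21 ∧ ww 4 = 16 / 315 ∧ ww 5 = 32 / 9765 ∧
      ww 6 = 64 / 615195 := by
    unfold ww
    norm_num [prod_range_succ]
  obtain ⟨w0, w1, w2, w3, w4, w5, w6⟩ := hw
  simp only [sum_range_succ, sum_range_zero, w0, w1, w2, w3, w4, w5, w6] at f0 f1 f2 f3 f4 f5 f6 f7 f8 f9 f10 f11 f12 f13 ⊢
  norm_num at f0 f1 f2 f3 f4 f5 f6 f7 f8 f9 f10 f11 f12 f13 ⊢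
  linarith

theorem point (d : ℕ) : (d : ℝ) ≤ (∑ m ∈ range 14, if m < d then (1 : ℝ) else 0) + 2 ^ d / 2 ^ 14 := by
  rcases Nat.lt_or_ge d 14 with h | h
  · have h1 : (d : ℝ) ≤ ∑ m ∈ range 14, if m < d then (1 : ℝ) else 0 := by
      rw [← sum_filter, sum_const, nsmul_eq_mul, mul_one, Nat.cast_le]
      have h2 : range d ⊆ (range 14).filter fun m => m < d := by
        intro m hm
        rw [mem_filter, mem_range]
        rw [mem_range] at hm
        omega
      simpa using card_le_card h2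
    have h2 : (0 : ℝ) ≤ 2 ^ d / 2 ^ 14 := by positivity
    linarith
  · obtain ⟨e, rfl⟩ := Nat.exists_eq_add_of_le h
    have h1 : ∑ m ∈ range 14, (if m < 14 + e then (1 : ℝ) else 0) = 14 := by
      rw [sum_congr rfl fun m hm => if_pos (by rw [mem_range] at hm; omega)]
      simp
    rw [h1, pow_add, mul_comm, mul_div_assoc, div_self (by positivity), mul_one]
    push_cast
    have h2 : (e : ℝ) ≤ 2 ^ e := by exact_mod_cast (Nat.lt_two_pow_self (n := e)).le
    linarith

theorem t_AVG : S_AVG := by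
  refine ⟨14, 1 / 140000, by norm_num, fun A _ d h1 h2 => ?_⟩
  have h3 : ∑ a, (d a : ℝ) ≤ ∑ a, ((∑ m ∈ range 14, if m < d a then (1 : ℝ) else 0) + 2 ^ d a / 2 ^ 14) :=
    sum_le_sum fun a _ => point (d a)
  rw [sum_add_distrib, sum_comm, ← sum_div] at h3
  have h4 : ∀ m ∈ range 14, ∑ a, (if m < d a then (1 : ℝ) else 0) ≤
      (1 - FF m + 1 / 140000) * (Fintype.card A : ℝ) := by
    intro m hm
    rw [mem_range] at hm
    have h5 := h1 m (by omega)
    have h6 : ({a : A | d a ≤ m}.ncard : ℝ) = ∑ a, (if d a ≤ m then (1 : ℝ) else 0) := by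
      classical
      rw [Set.ncard_eq_toFinset_card', ← sum_filter, sum_const, nsmul_eq_mul, mul_one]
      congr 2
      ext a
      simp
    have h7 : ∑ a, (if m < d a then (1 : ℝ) else 0) + ∑ a, (if d a ≤ m then (1 : ℝ) else 0) =
        (Fintype.card A : ℝ) := by
      rw [← sum_add_distrib]
      rw [sum_congr rfl fun a _ => show (if m < d a then (1 : ℝ) else 0) + (if d a ≤ m then (1 : ℝ) else 0) = 1 by
        by_cases h : m < d a
        · rw [if_pos h, if_neg (by omega), add_zero]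
        · rw [if_neg h, if_pos (by omega), zero_add]]
      simp
    rw [h6] at h5
    linarith
  have h8 := sum_le_sum h4
  rw [← sum_mul] at h8
  have h9 : ∑ m ∈ range 14, (1 - FF m + 1 / 140000) = 14 - (∑ m ∈ range 14, FF m) + 14 / 140000 := by
    rw [sum_add_distrib, sum_sub_distrib]
    simp
    norm_num
  rw [h9] at h8
  have h10 := FF_sum
  have hA : (0 : ℝ) ≤ (Fintype.card A : ℝ) := Nat.cast_nonneg _
  have h11 : (14 - (∑ m ∈ range 14, FF m) + 14 / 140000) * (Fintype.card A : ℝ) ≤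
      (12646 / 10000 + 14 / 140000) * (Fintype.card A : ℝ) :=
    mul_le_mul_of_nonneg_right (by linarith) hA
  have h12 : (∑ a, (2 : ℝ) ^ d a) / 2 ^ 14 ≤ 4 * (Fintype.card A : ℝ) / 2 ^ 14 :=
    div_le_div_of_nonneg_right h2 (by positivity)
  have h13 : 4 * (Fintype.card A : ℝ) / 2 ^ 14 = (1 / 4096) * (Fintype.card A : ℝ) := by ring
  rw [h13] at h12
  nlinarith

end Pool.Agent.D0H22.OD
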